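import Mathlib
import Pool.Agent.MP_e74ac0_al.Proof

namespace Pool.Agent.Results.MP_e74ac0_al.NotTame

open Pool.Agent.MP_e74ac0_al

universe w

/-- For every `n` there is a free Bol loop of exponent two on `n` generators; all its
automorphisms are tame if and only if `n ≤ 1`, and for any two distinct free generators the
inner mapping given by their products `y i * y j` and `y j * y i` is an automorphism which is
not tame. -/
theorem result (n : ℕ) :
    ∃ (B : Type) (_ : BolLoopTwo B) (y : Fin n → B), IsFreeOn.{0, 0, w} y ∧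
      ((∀ φ : MulAut B, φ ∈ tame y) ↔ n ≤ 1) ∧
      ∀ i j : Fin n, i ≠ j → ∃ φ : MulAut B, (∀ t : B, φ t =
        ((t * (y i * y j)) * (y j * y i)) * ((y i * y j) * (y j * y i))) ∧ φ ∉ tame y := by
  have key : ∀ i j : Fin n, i ≠ j → ∃ φ : MulAut (FreeBolTwo (Fin n)),
      (∀ t : FreeBolTwo (Fin n), φ t =
        ((t * (FreeBolTwo.of i * FreeBolTwo.of j)) * (FreeBolTwo.of j * FreeBolTwo.of i)) *
          ((FreeBolTwo.of i * FreeBolTwo.of j) * (FreeBolTwo.of j * FreeBolTwo.of i))) ∧
        φ ∉ tame FreeBolTwo.of := by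
    intro i j hij
    have : Fact (i ≠ j) := ⟨hij⟩
    exact ⟨inner _ _, fun _ => rfl, inner_not_tame _ (FreeBolTwo.isFreeOn_of (Fin n))⟩
  refine ⟨FreeBolTwo (Fin n), inferInstance, FreeBolTwo.of, FreeBolTwo.isFreeOn_of (Fin n),
    ⟨?_, fun hn φ => tame_of_le_one hn φ⟩, key⟩
  intro hall
  by_contra hn
  have h2 : 2 ≤ n := by omega
  obtain ⟨φ, -, hφ⟩ := key ⟨0, by omega⟩ ⟨1, by omega⟩ (by
    intro h
    have := congrArg Fin.val h
    exact absurd this (by norm_num))
  exact hφ (hall φ)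

end Pool.Agent.Results.MP_e74ac0_al.NotTame
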